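import Pool.Agent.helper60.DB.ALLB

/-!
# MP_fb2c2a: the complete answer to Q1

With `D_n(x) = ∑ C(n,k) C(n+k,k) x^k`, for every prime `p > 3`, modulo `p^2`:

(a) `∑ D_k(-3)^3 ≡ ∑ (-1)^k D_k(-1/4)^3 ≡ (-2/p) ∑ (-1)^k D_k(1/8)^3`, and the common value is
`(-1/p)(4x^2 - 2p)` if `p ≡ 1 (mod 3)`, `p = x^2 + 3y^2`, and `0` if `p ≡ 2 (mod 3)`;

(b) `(-1/p) ∑ (-1)^k D_k(1/2)^3` is `4x^2 - 2p` if `p = x^2 + 6y^2`, `8x^2 - 2p` if `p = 2x^2 + 3y^2`, and `0`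
if `(-6/p) = -1`;

(c) if `p ≠ 5`: `∑ D_k(3)^3 ≡ (-5/p) ∑ (-1)^k D_k(-1/16)^3`, and the common value is `4x^2 - 2p` if
`p = x^2 + 15y^2`, `12x^2 - 2p` if `p = 3x^2 + 5y^2`, and `0` if `(p/15) = -1`; for `p = 5` the first
congruence of (c) is false (its right hand side is `0` because `(-5/5) = 0`).
-/

namespace Pool.Agent.Results.MP_fb2c2a_nt.FullAnswer

open Pool.Agent.helper60.DK

theorem result (p : ℕ) [Fact p.Prime] (h3 : 3 < p) :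
    (CongrSq p (∑ k ∈ Finset.range p, D k (-3) ^ 3)
        (∑ k ∈ Finset.range p, (-1) ^ k * D k (-1 / 4) ^ 3) ∧
      CongrSq p (∑ k ∈ Finset.range p, (-1) ^ k * D k (-1 / 4) ^ 3)
        ((legendreSym p (-2) : ℚ) * ∑ k ∈ Finset.range p, (-1) ^ k * D k (1 / 8) ^ 3) ∧
      (p % 3 = 1 → ∀ x y : ℤ, (p : ℤ) = x ^ 2 + 3 * y ^ 2 →
        CongrSq p (∑ k ∈ Finset.range p, D k (-3) ^ 3)
          ((legendreSym p (-1) : ℚ) * (4 * (x : ℚ) ^ 2 - 2 * (p : ℚ)))) ∧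
      (p % 3 = 2 → CongrSq p (∑ k ∈ Finset.range p, D k (-3) ^ 3) 0)) ∧
    ((∀ x y : ℤ, (p : ℤ) = x ^ 2 + 6 * y ^ 2 →
        CongrSq p ((legendreSym p (-1) : ℚ) * ∑ k ∈ Finset.range p, (-1) ^ k * D k (1 / 2) ^ 3)
          (4 * (x : ℚ) ^ 2 - 2 * (p : ℚ))) ∧
      (∀ x y : ℤ, (p : ℤ) = 2 * x ^ 2 + 3 * y ^ 2 →
        CongrSq p ((legendreSym p (-1) : ℚ) * ∑ k ∈ Finset.range p, (-1) ^ k * D k (1 / 2) ^ 3)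
          (8 * (x : ℚ) ^ 2 - 2 * (p : ℚ))) ∧
      (legendreSym p (-6) = -1 →
        CongrSq p ((legendreSym p (-1) : ℚ) * ∑ k ∈ Finset.range p, (-1) ^ k * D k (1 / 2) ^ 3) 0)) ∧
    (p ≠ 5 →
      CongrSq p (∑ k ∈ Finset.range p, D k 3 ^ 3)
        ((legendreSym p (-5) : ℚ) * ∑ k ∈ Finset.range p, (-1) ^ k * D k (-1 / 16) ^ 3) ∧
      (∀ x y : ℤ, (p : ℤ) = x ^ 2 + 15 * y ^ 2 →
        CongrSq p (∑ k ∈ Finset.range p, D k 3 ^ 3) (4 * (x : ℚ) ^ 2 - 2 * (p : ℚ))) ∧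
      (∀ x y : ℤ, (p : ℤ) = 3 * x ^ 2 + 5 * y ^ 2 →
        CongrSq p (∑ k ∈ Finset.range p, D k 3 ^ 3) (12 * (x : ℚ) ^ 2 - 2 * (p : ℚ))) ∧
      (jacobiSym (p : ℤ) 15 = -1 → CongrSq p (∑ k ∈ Finset.range p, D k 3 ^ 3) 0)) ∧
    (p = 5 → ¬ CongrSq p (∑ k ∈ Finset.range p, D k 3 ^ 3)
      ((legendreSym p (-5) : ℚ) * ∑ k ∈ Finset.range p, (-1) ^ k * D k (-1 / 16) ^ 3)) := by
  refine ⟨Pool.Agent.helper60.DA.fullA h3, Pool.Agent.helper60.DB.fullB h3,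
    fun h5 => Pool.Agent.helper60.DB.fullC h3 h5, ?_⟩
  rintro rfl
  exact Pool.Agent.helper60.DB.chain5

end Pool.Agent.Results.MP_fb2c2a_nt.FullAnswer
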