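import Pool.Agent.helper60.DK.ALL

/-!
# MP_fb2c2a: a criterion for `∑ (-1)^k D_k(x)^3 ≡ 0 (mod p^2)`

For a prime `p ≥ 7` and a `p`-integral rational `x` with `x (1+x) (1+4x)` not `≡ 0 (mod p)`, the sum is
`≡ 0 (mod p^2)` if and only if `∑_{k ≤ n} C(n,k) C(n+k,k) C(2k,k) L^k ≡ 0 (mod p)`, where `n = [p/3]`
and `L = -27 x^2 / (16 (1+x)^3)`.
-/

namespace Pool.Agent.Results.MP_fb2c2a_nt.SquareCriterion

open Pool.Agent.helper60.DK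

theorem result (p : ℕ) (hp : p.Prime) (h7 : 7 ≤ p) (x : ℚ) (hd : ¬ p ∣ x.den)
    (hx : ¬ (p : ℤ) ∣ (x * (1 + x) * (1 + 4 * x)).num) :
    CongrSq p (∑ k ∈ Finset.range p, (-1) ^ k * D k x ^ 3) 0 ↔
      ∃ r : ℚ, ¬ p ∣ r.den ∧ ∑ k ∈ Finset.range (p / 3 + 1), ((p / 3).choose k : ℚ)
        * ((p / 3 + k).choose k : ℚ) * ((2 * k).choose k : ℚ)
        * (-27 * x ^ 2 / (16 * (1 + x) ^ 3)) ^ k = (p : ℚ) * r :=
  squareCriterion p hp h7 x hd hx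

end Pool.Agent.Results.MP_fb2c2a_nt.SquareCriterion
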